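import Mathlib
import Pool.Agent.Lib.helper21.CPred

set_option autoImplicit false

namespace Pool.Agent.Results.MP_9ab454_lc.NotRE

open Nat.Partrec (Code)
open Nat.Partrec.Code Denumerable Encodable Pool.Agent.Lib.helper21.CPred

/-- Acceptable numberings: computably intertranslatable with the standard one. -/
def Acceptable (φ : ℕ → ℕ →. ℕ) : Prop :=
  (∃ f, Computable f ∧ ∀ i, φ i = eval (ofNat Code (f i))) ∧
    ∃ g, Computable g ∧ ∀ i, eval (ofNat Code i) = φ (g i)

def Blum (φ Φ : ℕ → ℕ →. ℕ) : Prop :=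
  Acceptable φ ∧ (∀ i, Partrec (Φ i)) ∧ (∀ i x, (Φ i x).Dom ↔ (φ i x).Dom) ∧
    ComputablePred fun z : ℕ × ℕ × ℕ => z.2.2 ∈ Φ z.1 z.2.1

/-- The complexity class of `t`. -/
def Cls (φ Φ : ℕ → ℕ →. ℕ) (t : ℕ → ℕ) : Set (ℕ → ℕ) :=
  {f | ∃ i, φ i = f ∧ ∃ n, ∀ x, n ≤ x → ∃ y ∈ Φ i x, y ≤ t x}

/-- Its index set. -/
def Omega (φ Φ : ℕ → ℕ →. ℕ) (t : ℕ → ℕ) (i : ℕ) : Prop := ∃ f ∈ Cls φ Φ t, φ i = f

def Conform (φ Φ : ℕ → ℕ →. ℕ) : Prop :=
  ∀ t₁ t₂, Computable t₁ → Computable t₂ → (Cls φ Φ t₁).Nonempty → (Cls φ Φ t₂).Nonempty →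
    OneOneEquiv (Omega φ Φ t₁) (Omega φ Φ t₂)

/-- Recursively enumerable classes of total functions. -/
def RE (φ : ℕ → ℕ →. ℕ) (C : Set (ℕ → ℕ)) : Prop :=
  C = ∅ ∨ ∃ g : ℕ → ℕ, Computable g ∧ (fun f : ℕ → ℕ => (f : ℕ →. ℕ)) '' C = Set.range fun n => φ (g n)

def ev (i x k : ℕ) : Option ℕ :=
  if i % 3 = 0 then evaln k (ofNat Code (i / 3)) x
  else if i % 3 = 1 then
    (if k = 0 ∧ evaln x (ofNat Code (i / 3)) 0 ≠ none then none else some (i / 3 + 1))
  else some ((0 :: ofNat (List ℕ) (i / 3)).getD x 0)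

theorem cev {α : Type} [Primcodable α] {i x k : α → ℕ} (hi : Computable i) (hx : Computable x)
    (hk : Computable k) : Computable fun a => ev (i a) (x a) (k a) := by
  have h1 : Computable fun a => i a % 3 := Primrec.nat_mod.to_comp.comp hi (.const 3)
  have h2 : Computable fun a => i a / 3 := Primrec.nat_div.to_comp.comp hi (.const 3)
  have h3 := (Computable.ofNat Code).comp h2
  exact cite (ceq h1 (.const 0)) (primrec_evaln.to_comp.comp ((hk.pair h3).pair hx))
    (cite (ceq h1 (.const 1)) (cite (cand (ceq hk (.const 0)) (ceq (primrec_evaln.to_comp.comp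
      ((hx.pair h3).pair (.const 0))) (.const none)).not) (.const none)
      (Computable.option_some.comp (Computable.succ.comp h2)))
      (Computable.option_some.comp ((Primrec.list_getD 0).to_comp.comp (Computable.list_cons.comp
        (.const 0) ((Computable.ofNat _).comp h2)) hx)))

theorem ev_mono {i x k k' y} (h : k ≤ k') (e : ev i x k = some y) : ev i x k' = some y := by
  unfold ev at *
  split_ifs at * with a b c d <;> first | exact evaln_mono h e | exact e | exact (d ⟨by omega, ‹_ ∧ _›.2⟩).elim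

def φ (i : ℕ) : ℕ →. ℕ := fun x => Nat.rfindOpt (ev i x)

def Φ (i : ℕ) : ℕ →. ℕ := fun x => Nat.rfind fun k => Part.some (ev i x k).isSome

theorem mem_φ {i x y} : y ∈ φ i x ↔ ∃ k, ev i x k = some y := Nat.rfindOpt_mono ev_mono

theorem φ_eq {i} {f : ℕ → ℕ} : φ i = f ↔ ∀ x, ∃ k, ev i x k = some (f x) := by
  simp only [← mem_φ, ← Part.eq_some_iff]
  exact funext_iff

theorem φ_three (e : ℕ) : φ (3 * e) = eval (ofNat Code e) := by
  ext x y; simp [mem_φ, ev, evaln_complete]

theorem Φ_le {i x t} : (∃ y ∈ Φ i x, y ≤ t) ↔ ∃ v, ev i x t = some v := by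
  constructor
  · rintro ⟨y, h, e⟩
    obtain ⟨v, hv⟩ := Option.isSome_iff_exists.1 (by simpa using Nat.rfind_spec h)
    exact ⟨v, ev_mono e hv⟩
  · rintro ⟨v, h⟩
    obtain ⟨n, h1, h2⟩ := Nat.rfind_min' (p := fun k => (ev i x k).isSome) (m := t) (by simp [h])
    exact ⟨n, h1, h2⟩

theorem index {ψ : ℕ → ℕ →. ℕ} (h : Partrec₂ ψ) :
    ∃ s, Computable s ∧ Function.Injective s ∧ ∀ i, eval (ofNat Code (s i)) = ψ i := by
  obtain ⟨c, hc⟩ := exists_code.1 (Partrec.nat_iff.1
    (h.comp (Computable.fst.comp Computable.unpair) (Computable.snd.comp Computable.unpair)))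
  exact ⟨fun i => encode (curry c i), (Primrec.encode.comp (primrec₂_curry.comp (.const c)
    .id)).to_comp, fun i j e => (curry_inj (encode_injective e)).2,
    fun i => funext fun x => by simp [eval_curry, hc]⟩

theorem part : Partrec₂ φ := Partrec.rfindOpt
  (cev (Computable.fst.comp .fst) (Computable.snd.comp .fst) .snd).to₂

theorem blum : Blum φ Φ := by
  refine ⟨⟨(index part).imp fun s h => ⟨h.1, fun i => (h.2.2 i).symm⟩, _,
    (Primrec.nat_mul.comp (.const 3) .id).to_comp, fun i => (φ_three i).symm⟩,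
    fun i => Partrec.rfind (Primrec.option_isSome.to_comp.comp
      (cev (.const i) .fst .snd)).partrec.to₂, fun i x => ?_, ?_⟩
  · simp [Φ, φ, Nat.rfind_dom, Nat.rfindOpt_dom, Option.isSome_iff_exists]
  · refine (cand (ceq (cev .fst (Computable.fst.comp .snd) (Computable.snd.comp .snd))
      (.const none)).not (call (p := fun (z : ℕ × ℕ × ℕ) k => ev z.1 z.2.1 k = none)
        (ceq (cev (Computable.fst.comp .fst) (Computable.fst.comp (Computable.snd.comp .fst)) .snd)
        (.const none)) (Computable.snd.comp .snd))).of_eq fun z => ?_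
    simp [Φ, Option.isSome_iff_ne_none]

theorem mem_cls {t} {f : ℕ → ℕ} : f ∈ Cls φ Φ t ↔
    ∃ i, φ i = f ∧ ∃ n, ∀ x, n ≤ x → ev i x (t x) = some (f x) := by
  refine exists_congr fun i => and_congr_right fun h => exists_congr fun n =>
    forall₂_congr fun x _ => Φ_le.trans ⟨fun ⟨v, hv⟩ => ?_, fun h => ⟨_, h⟩⟩
  have := mem_φ.2 ⟨_, hv⟩
  rw [h] at this
  rw [hv, Part.mem_some_iff.1 this]

theorem fin_supp (t) {f : ℕ → ℕ} (h0 : f 0 = 0) {n} (h : ∀ x, n ≤ x → f x = 0) :
    f ∈ Cls φ Φ t := by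
  have : ∀ x k, ev (3 * encode ((List.range n).map fun y => f (y + 1)) + 2) x k = some (f x) := by
    intro x k
    rw [ev, if_neg (by omega), if_neg (by omega), show ∀ e, (3 * e + 2) / 3 = e by omega,
      ofNat_encode]
    rcases x with _ | x
    · simp [h0]
    · by_cases e : x < n
      · simp [e]
      · simp [e, h (x + 1) (by omega)]
  exact mem_cls.2 ⟨_, φ_eq.2 fun x => ⟨0, this x 0⟩, 0, fun x _ => this _ _⟩

def alive (t : ℕ → ℕ) (i w x : ℕ) : Prop := ∀ y < x,
  ev w.unpair.1 y (if y < w.unpair.2.unpair.1 then w.unpair.2.unpair.2 else t y) ≠ none ∧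
  (ev i y x = none ∨ ev i y x =
    ev w.unpair.1 y (if y < w.unpair.2.unpair.1 then w.unpair.2.unpair.2 else t y))

theorem calive {t} (ht : Computable t) {α : Type} [Primcodable α] {i w x : α → ℕ}
    (hi : Computable i) (hw : Computable w) (hx : Computable x) :
    ComputablePred fun a => alive t (i a) (w a) (x a) := by
  have h1 := Computable.unpair.comp (hw.comp (Computable.fst (β := ℕ)))
  have h2 := Computable.unpair.comp (Computable.snd.comp h1)
  have h3 := cev (Computable.fst.comp h1) .snd (cite (clt .snd (Computable.fst.comp h2))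
    (Computable.snd.comp h2) (ht.comp .snd))
  have h4 := cev (hi.comp .fst) .snd (hx.comp (Computable.fst (β := ℕ)))
  exact call (cand (ceq h3 (.const none)).not (cor (ceq h4 (.const none)) (ceq h4 h3))) hx

theorem alive.mono {t i w x x'} (h : alive t i w x') (e : x ≤ x') : alive t i w x := fun y hy => by
  obtain ⟨h1, h2⟩ := h y (by omega)
  refine ⟨h1, ?_⟩
  cases e' : ev i y x with
  | none => simp
  | some v => simpa [ev_mono e e'] using h2

theorem omega_iff {t i} {f : ℕ → ℕ} (h : φ i = f) : f ∈ Cls φ Φ t ↔ ∃ w, ∀ x, alive t i w x := by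
  rw [mem_cls]
  constructor
  · rintro ⟨j, h1, n, h2⟩
    choose k hk using φ_eq.1 h1
    refine ⟨j.pair (n.pair ((Finset.range n).sup k)), fun x y _ => ?_⟩
    have : ev j y (if y < n then (Finset.range n).sup k else t y) = some (f y) := by
      split_ifs with e
      exacts [ev_mono (Finset.le_sup (by simpa)) (hk y), h2 y (by omega)]
    simp only [Nat.unpair_pair, this]
    refine ⟨by simp, ?_⟩
    cases e' : ev i y x with
    | none => simp
    | some v => simpa [h] using mem_φ.2 ⟨_, e'⟩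
  · rintro ⟨w, hw⟩
    have : ∀ y, ev w.unpair.1 y (if y < w.unpair.2.unpair.1 then w.unpair.2.unpair.2 else t y) =
        some (f y) := fun y => by
      obtain ⟨k, hk⟩ := φ_eq.1 h y
      simpa [ev_mono (le_max_left k (y + 1)) hk, eq_comm] using
        (hw (max k (y + 1)) y (by omega)).2
    exact ⟨_, φ_eq.2 fun y => ⟨_, this y⟩, w.unpair.2.unpair.1,
      fun y hy => by simpa [hy.not_gt] using this y⟩

def still (t : ℕ → ℕ) (i x : ℕ) : Prop :=
  ∃ w < x, alive t i w x ∧ ∀ w' < w, ¬ alive t i w' (x - 1)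

theorem still_iff {t i} : (∃ w, ∀ x, alive t i w x) ↔ ∃ n, ∀ x, n ≤ x → still t i x := by
  classical
  constructor
  · intro h
    choose! k hk using fun w (hw : w < Nat.find h) => not_forall.1 (Nat.find_min h hw)
    refine ⟨(Finset.range (Nat.find h)).sup k + Nat.find h + 1, fun x hx =>
      ⟨_, by omega, Nat.find_spec h x, fun w hw a => hk w hw (a.mono ?_)⟩⟩
    have := Finset.le_sup (f := k) (Finset.mem_range.2 hw)
    omega
  · rintro ⟨n, h⟩
    obtain ⟨w, -, h1, h2⟩ := h n le_rfl
    have : ∀ x, n ≤ x → alive t i w x := fun x hx => by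
      induction x, hx using Nat.le_induction with
      | base => exact h1
      | succ x hx ih =>
        obtain ⟨w', -, h3, h4⟩ := h (x + 1) (by omega)
        rcases lt_trichotomy w w' with l | rfl | l
        exacts [(h4 w l ih).elim, h3, (h2 w' l (h3.mono (by omega))).elim]
    exact ⟨w, fun x => (this _ (le_max_left n x)).mono (le_max_right _ _)⟩

def diag (t : ℕ → ℕ) (x n : ℕ) : ℕ := Nat.rec 1 (fun j s => s + (ev j x (t x)).getD 0) n

theorem lt_diag {t x j n v} (h : j < n) (e : ev j x (t x) = some v) : v < diag t x n := by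
  have : ∀ n, 0 < diag t x n := fun n => by
    induction n with
    | zero => exact one_pos
    | succ n ih => exact Nat.add_pos_left ih _
  induction h with
  | refl => have := this j; simp only [diag, e] at *; simpa using this
  | step _ ih => exact ih.trans_le (Nat.le_add_right _ _)

theorem red {t₁ t₂} (h₁ : Computable t₁) (h₂ : Computable t₂) :
    OneOneReducible (Omega φ Φ t₁) (Omega φ Φ t₂) := by
  classical
  let out := fun i x => if x = 0 ∨ still t₁ i x then 0 else diag t₂ x x
  have ho : Computable₂ out := cite (p := fun z : ℕ × ℕ => z.2 = 0 ∨ still t₁ z.1 z.2) (cor (ceq .snd (.const 0)) (cex (cand (calive h₁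
    (Computable.fst.comp .fst) .snd (Computable.snd.comp .fst)) (call (calive h₁
      (Computable.fst.comp (Computable.fst.comp .fst)) .snd (Primrec.pred.to_comp.comp
        (Computable.snd.comp (Computable.fst.comp .fst)))).not .snd)) .snd)) (.const 0)
    (Computable.nat_rec .snd (.const 1) (Primrec.nat_add.to_comp.comp (Computable.snd.comp .snd)
      (Computable.option_getD (cev (Computable.fst.comp .snd) (Computable.snd.comp .fst)
        (h₂.comp (Computable.snd.comp .fst))) (.const 0))).to₂)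
  obtain ⟨s, a, b, c⟩ := index (ψ := fun i x => (φ i x).map fun _ => out i x)
    (Partrec.map part (Computable.comp ho .fst).to₂)
  refine ⟨fun i => 3 * s i, Primrec.nat_mul.to_comp.comp (.const 3) a,
    fun i j e => b (by simpa using e), fun i => ?_⟩
  simp only [Omega, φ_three, c]
  constructor
  · rintro ⟨f, h1, h2⟩
    obtain ⟨n, hn⟩ := still_iff.1 ((omega_iff h2).1 h1)
    exact ⟨out i, fin_supp _ (by simp [out]) (n := n) fun x hx => by simp [out, hn x hx],
      funext fun x => by simp [h2]⟩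
  · rintro ⟨f, h1, h2⟩
    have d : ∀ x, (φ i x).Dom ∧ out i x = f x := fun x => by
      simpa [Part.dom_iff_mem] using Part.eq_some_iff.1 (congrFun h2 x)
    have e : φ i = (fun x => (φ i x).get (d x).1 : ℕ → ℕ) := funext fun x => by simp
    refine ⟨_, (omega_iff e).2 (still_iff.2 ?_), e⟩
    obtain ⟨j, -, n, hn⟩ := mem_cls.1 h1
    refine ⟨n + j + 1, fun x hx => by_contra fun h => ?_⟩
    have := lt_diag (n := x) (by omega) (hn x (by omega))
    rw [← (d x).2] at this
    simp [out, h, show x ≠ 0 by omega] at this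

theorem result : ∃ φ Φ : ℕ → ℕ →. ℕ, Blum φ Φ ∧ Conform φ Φ ∧
    ∃ t, Computable t ∧ ¬ RE φ (Cls φ Φ t) := by
  refine ⟨φ, Φ, blum, fun _ _ a b _ _ => ⟨red a b, red b a⟩, fun _ => 0, .const 0, ?_⟩
  rintro (h | ⟨g, hg, h⟩)
  · exact h.subset (fin_supp _ (f := fun _ => 0) rfl (n := 0) fun _ _ => rfl)
  refine ComputablePred.halting_problem_not_re 0 ((cre (p := fun c m =>
    ev (g m.unpair.1) 0 m.unpair.2 = some (encode c + 1)) (ceq (cev (hg.comp (Computable.fst.comp
      (Computable.unpair.comp .snd))) (.const 0) (Computable.snd.comp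
      (Computable.unpair.comp .snd))) (Computable.option_some.comp (Computable.succ.comp
        (Computable.encode.comp .fst))))).of_eq fun c => ?_)
  constructor
  · rintro ⟨m, hm⟩ hd
    obtain ⟨f, h1, h2⟩ := h.ge ⟨m.unpair.1, rfl⟩
    have h3 := mem_φ.2 ⟨_, hm⟩
    simp only at h2
    rw [← h2, PFun.coe_val, Part.mem_some_iff] at h3
    obtain ⟨i, h4, n, h5⟩ := mem_cls.1 h1
    obtain ⟨k, h6⟩ := φ_eq.1 h4 0
    obtain ⟨v, hv⟩ := Part.dom_iff_mem.1 hd
    obtain ⟨l, hl⟩ := evaln_complete.1 hv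
    have h7 := h5 _ (le_max_left n l)
    unfold ev at h6 h7
    by_cases a : i % 3 = 0
    · simp [a, evaln] at h7
    by_cases b : i % 3 = 1
    · simp [b, ← h3] at h6 h7
      simp [h6.2, Option.mem_def.1 (evaln_mono (le_max_right n l) hl)] at h7
    · simp [a, b, ← h3] at h6
  · intro hd
    have : ∀ x k, ev (3 * encode c + 1) x k = some (encode c + 1) := fun x k => by
      rw [ev, if_neg (by omega), if_pos (by omega), show ∀ e, (3 * e + 1) / 3 = e by omega,
        ofNat_encode, if_neg]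
      rintro ⟨-, h⟩
      obtain ⟨v, hv⟩ := Option.ne_none_iff_exists'.1 h
      exact hd (Part.dom_iff_mem.2 ⟨v, evaln_sound hv⟩)
    obtain ⟨n, hn⟩ := h.le ⟨fun _ => encode c + 1, mem_cls.2 ⟨_, φ_eq.2 fun x => ⟨0, this x 0⟩,
      0, fun x _ => this _ _⟩, rfl⟩
    obtain ⟨k, hk⟩ := φ_eq.1 hn 0
    exact ⟨n.pair k, by simpa using hk⟩

end Pool.Agent.Results.MP_9ab454_lc.NotRE
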